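import Pool.Agent.H705.RO.Fin2

/-!
# How often the sums over zeros with random ordinates and random phases are large

The model of `MP_46285d_nt.RandomOrdinates`: `S (t) = ∑_n a n cos ((g n + w n u n) t + 2 π v n + β n)`, the random version of
`M (x) / √x` and `L (x) / √x` at `x = e ^ t`; the pairs `X n = (u n, v n)` are independent and uniformly distributed on the unit
square. Here the sum of the first `N` amplitudes is asymptotic to `b (log N) ^ κ` (`κ = 5/4` for `M` and `L` conjecturally, `κ = 2`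
for `ψ`), so that the upper limit of `S (t) / (log log t) ^ κ` is `b`. The length of `{t ∈ [0, T] | …}` is the logarithmic measure
`∫ dx / x` of the corresponding set of the `x ∈ [1, e ^ T]`.
-/

set_option autoImplicit false

namespace Pool.Agent.Results.MP_46285d_nt.LargeValueFrequencies

open MeasureTheory ProbabilityTheory Filter Topology Finset Pool.Agent.H705.RO

/-- Let `Win A g w`, `Amp a`, `κ, b > 0` and `(a 0 + … + a (N - 1)) / (log N) ^ κ → b`. Almost surely the series converges for all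
`t ≥ 0`, its sum `S` satisfies, for all `0 < θ < 1` and `ε > 0` and all large `T`: the sets of the `t ∈ [0, T]` with
`S t ≥ θ b (log log T) ^ κ`, and of those with `- S t ≥ θ b (log log T) ^ κ`, have length at least
`T exp (- (log T) ^ (θ ^ (1/κ) + ε))`, and the set of the `t ∈ [0, T]` with `|S t| ≥ θ b (log log T) ^ κ` has length at most
`T exp (- (log T) ^ (θ ^ (1/κ) - ε))`; and for `θ > 1` and all large `T` the last set is empty. -/
theorem result :
    ∀ (Ω : Type) [MeasurableSpace Ω] (P : Measure Ω) (X : ℕ → Ω → ℝ × ℝ), Model P X →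
      ∀ (A : ℕ) (g w : ℕ → ℝ), Win A g w → ∀ (a β : ℕ → ℝ), Amp a → ∀ κ b : ℝ, 0 < κ → 0 < b →
        Tendsto (fun N : ℕ => R a N / Real.log N ^ κ) atTop (𝓝 b) →
        ∀ᵐ ω ∂P, ∃ S : ℝ → ℝ,
          (∀ t : ℝ, 0 ≤ t → Tendsto (fun N : ℕ => ∑ n ∈ range N,
            a n * Real.cos ((g n + w n * (X n ω).1) * t + 2 * Real.pi * (X n ω).2 + β n)) atTop (𝓝 (S t))) ∧
          (∀ θ ε : ℝ, 0 < θ → θ < 1 → 0 < ε → ∀ᶠ T : ℝ in atTop,
            ENNReal.ofReal (T * Real.exp (-(Real.log T ^ (θ ^ (1 / κ) + ε)))) ≤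
              (volume : Measure ℝ) {t : ℝ | 0 ≤ t ∧ t ≤ T ∧ θ * b * Real.log (Real.log T) ^ κ ≤ S t} ∧
            ENNReal.ofReal (T * Real.exp (-(Real.log T ^ (θ ^ (1 / κ) + ε)))) ≤
              (volume : Measure ℝ) {t : ℝ | 0 ≤ t ∧ t ≤ T ∧ θ * b * Real.log (Real.log T) ^ κ ≤ -S t} ∧
            (volume : Measure ℝ) {t : ℝ | 0 ≤ t ∧ t ≤ T ∧ θ * b * Real.log (Real.log T) ^ κ ≤ |S t|} ≤
              ENNReal.ofReal (T * Real.exp (-(Real.log T ^ (θ ^ (1 / κ) - ε))))) ∧
          ∀ θ : ℝ, 1 < θ → ∀ᶠ T : ℝ in atTop, ∀ t : ℝ, 0 ≤ t → t ≤ T →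
            |S t| < θ * b * Real.log (Real.log T) ^ κ :=
  Pool.Agent.H705.RO.main2

end Pool.Agent.Results.MP_46285d_nt.LargeValueFrequencies
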