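import Pool.Agent.H705.RO.Fin

/-!
# Gonek's statement for sums over zeros with random ordinates and random phases

Formally `M (x) / √x` and `L (x) / √x` are sums of waves `a n cos (γ n log x + phase)` over the zeros `1/2 + i γ n` of zeta with
`γ n > 0`, plus a constant, where `a n = 2 / |ρ ζ' (ρ)|`, respectively `2 |ζ (2 ρ)| / |ρ ζ' (ρ)|`. In the random model the
ordinates are `γ n = g n + w n u n`, that is, each ordinate is moved independently to a uniformly distributed point of the
interval `[g n, g n + w n]`, where `w n` may be as small as a fixed power `(n + 2) ^ (-A)`, and the phases are `2 π v n + β n`;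
the pairs `X n = (u n, v n)` are independent and uniformly distributed on the unit square.
-/

set_option autoImplicit false

namespace Pool.Agent.Results.MP_46285d_nt.RandomOrdinates

open MeasureTheory ProbabilityTheory Filter Topology Finset Pool.Agent.H705.RO

/-- The model exists. Let `A` be a number, `|g n| ≤ (n + 2) ^ A`, `(n + 2) ^ (-A) ≤ w n ≤ 1`, and let `(a i, β i)`, `i ∈ ι`, be
countably many sequences of amplitudes `a i n ≥ 0` with `∑_{n ≥ N} a i n ^ 2 ≤ C N ^ (-1 + ε)` for every `ε > 0`, and of arbitrary real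
numbers `β i n` (for instance those of `M` and of `L`). Almost surely, for all `i` simultaneously: the series of the waves
converges for all `t ≥ 0` to a continuous function `S`, and for all real `κ > 0` and `c`, with
`Lam (a i) κ = limsup (a i 0 + … + a i (N - 1)) / (log N) ^ κ` (in the extended reals): the upper limit of
`√x (c + S (log x)) / (√x (log log log x) ^ κ)` as `x → ∞` is `Lam (a i) κ` and the lower limit is `- Lam (a i) κ`; and these are
`B` and `- B` for a real number `B > 0` if and only if `0 < Lam (a i) κ < ∞`. -/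
theorem result :
    (∃ (Ω : Type) (_ : MeasurableSpace Ω) (P : Measure Ω) (X : ℕ → Ω → ℝ × ℝ), Model P X) ∧
    ∀ (Ω : Type) [MeasurableSpace Ω] (P : Measure Ω) (X : ℕ → Ω → ℝ × ℝ), Model P X →
      ∀ (A : ℕ) (g w : ℕ → ℝ), Win A g w → ∀ (ι : Type) [Countable ι] (a β : ι → ℕ → ℝ), (∀ i, Amp (a i)) →
        ∀ᵐ ω ∂P, ∀ i : ι, ∃ S : ℝ → ℝ, ContinuousOn S (Set.Ici 0) ∧
          (∀ t : ℝ, 0 ≤ t → Tendsto (fun N : ℕ => ∑ n ∈ range N,
            a i n * Real.cos ((g n + w n * (X n ω).1) * t + 2 * Real.pi * (X n ω).2 + β i n)) atTop (𝓝 (S t))) ∧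
          ∀ κ c : ℝ, 0 < κ →
            (Filter.limsup (fun x : ℝ => (((Real.sqrt x * (c + S (Real.log x))) /
                (Real.sqrt x * Real.log (Real.log (Real.log x)) ^ κ) : ℝ) : EReal)) atTop = Lam (a i) κ ∧
              Filter.liminf (fun x : ℝ => (((Real.sqrt x * (c + S (Real.log x))) /
                (Real.sqrt x * Real.log (Real.log (Real.log x)) ^ κ) : ℝ) : EReal)) atTop = -Lam (a i) κ) ∧
            ((∃ B : ℝ, 0 < B ∧
              Filter.liminf (fun x : ℝ => (((Real.sqrt x * (c + S (Real.log x))) /
                (Real.sqrt x * Real.log (Real.log (Real.log x)) ^ κ) : ℝ) : EReal)) atTop = ((-B : ℝ) : EReal) ∧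
              Filter.limsup (fun x : ℝ => (((Real.sqrt x * (c + S (Real.log x))) /
                (Real.sqrt x * Real.log (Real.log (Real.log x)) ^ κ) : ℝ) : EReal)) atTop = ((B : ℝ) : EReal)) ↔
              0 < Lam (a i) κ ∧ Lam (a i) κ < ⊤) :=
  Pool.Agent.H705.RO.main

end Pool.Agent.Results.MP_46285d_nt.RandomOrdinates
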